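import Pool.Agent.H90.LuccProof

set_option autoImplicit false

namespace Pool.Agent.Results.MP_ee84c2_an.LuccNotSucc

open Pool.Agent.H90.LuccDefs

/-- LUCC does not imply SUCC, even for semi-normalized `M`-bounded bases of Banach spaces. -/
theorem result (𝕜 : Type) [RCLike 𝕜] :
    ¬ ∀ (X : Type) [NormedAddCommGroup X] [NormedSpace 𝕜 X] [CompleteSpace X] (x : ℕ → X),
      IsBasis 𝕜 x → LUCC 𝕜 x → SUCC 𝕜 x := fun h =>
  Pool.Agent.H90.LuccProof.not_succ
    (h _ _ Pool.Agent.H90.LuccProof.isBasis Pool.Agent.H90.LuccProof.lucc)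

end Pool.Agent.Results.MP_ee84c2_an.LuccNotSucc
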